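import Mathlib

set_option autoImplicit false
open Set Filter Topology TopologicalSpace

namespace Pool.Agent.H.MP_a8ba19

inductive Tm (X : Type) : Type
  | e : Tm X
  | gen : X → Tm X
  | op : Tm X → Tm X → Tm X

open Tm

variable {X : Type}

open Classical in
noncomputable def mul (g h : Tm X) : Tm X :=
  if h = e then g else if h = g then e else if H : ∃ u, h = op g u then H.choose else op g h

def Nf : Tm X → Prop
  | e => True
  | gen _ => True
  | op g h => Nf g ∧ Nf h ∧ h ≠ e ∧ h ≠ g ∧ ∀ u, h ≠ op g u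

def lv : Tm X → Set X
  | e => ∅
  | gen x => {x}
  | op g h => lv g ∪ lv h

theorem lv_fin : ∀ t : Tm X, (lv t).Finite
  | e => finite_empty
  | gen x => finite_singleton x
  | op g h => (lv_fin g).union (lv_fin h)

theorem op_ne (g u : Tm X) : op g u ≠ g := fun h => by
  have := congrArg sizeOf h
  simp at this
  omega

theorem mul_e (g : Tm X) : mul g e = g := if_pos rfl

theorem mul_self (g : Tm X) : mul g g = e := by
  unfold mul
  split_ifs with h <;> simp_all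

theorem mul_op (g u : Tm X) : mul g (op g u) = u := by
  have H : ∃ v, op g u = op g v := ⟨u, rfl⟩
  rw [mul, if_neg nofun, if_neg (op_ne g u), dif_pos H]
  exact (op.inj H.choose_spec).2.symm

theorem mul_nf {g h : Tm X} (h1 : h ≠ e) (h2 : h ≠ g) (h3 : ∀ u, h ≠ op g u) : mul g h = op g h := by
  rw [mul, if_neg h1, if_neg h2, dif_neg fun ⟨u, hu⟩ => h3 u hu]

theorem cases4 (g h : Tm X) : h = e ∨ h = g ∨ (∃ u, h = op g u) ∨ (h ≠ e ∧ h ≠ g ∧ ∀ u, h ≠ op g u) := by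
  by_contra! H
  obtain ⟨u, hu⟩ := H.2.2.2 H.1 H.2.1
  exact H.2.2.1 u hu

theorem nf_mul {g h : Tm X} (hg : Nf g) (hh : Nf h) : Nf (mul g h) := by
  rcases cases4 g h with rfl | rfl | ⟨u, rfl⟩ | H
  · rwa [mul_e]
  · rw [mul_self]; trivial
  · rw [mul_op]; exact hh.2.1
  · rw [mul_nf H.1 H.2.1 H.2.2]; exact ⟨hg, hh, H⟩

theorem mul_mul (g : Tm X) {h : Tm X} (hh : Nf h) : mul g (mul g h) = h := by
  rcases cases4 g h with rfl | rfl | ⟨u, rfl⟩ | H
  · rw [mul_e, mul_self]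
  · rw [mul_self, mul_e]
  · rw [mul_op, mul_nf hh.2.2.1 hh.2.2.2.1 hh.2.2.2.2]
  · rw [mul_nf H.1 H.2.1 H.2.2, mul_op]

theorem lv_mul (g h : Tm X) : lv (mul g h) ⊆ lv g ∪ lv h := by
  rcases cases4 g h with rfl | rfl | ⟨u, rfl⟩ | H
  · rw [mul_e]; exact subset_union_left
  · rw [mul_self]; exact empty_subset _
  · rw [mul_op]; exact fun x hx => Or.inr (Or.inr hx)
  · rw [mul_nf H.1 H.2.1 H.2.2]; rfl

noncomputable def hom (φ : X → X) : Tm X → Tm X
  | e => e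
  | gen x => gen (φ x)
  | op g h => mul (hom φ g) (hom φ h)

theorem nf_hom (φ : X → X) : ∀ t, Nf (hom φ t)
  | e => trivial
  | gen _ => trivial
  | op g h => nf_mul (nf_hom φ g) (nf_hom φ h)

theorem hom_mul (φ : X → X) (g h : Tm X) : hom φ (mul g h) = mul (hom φ g) (hom φ h) := by
  rcases cases4 g h with rfl | rfl | ⟨u, rfl⟩ | H
  · rw [mul_e]; exact (mul_e _).symm
  · rw [mul_self, mul_self]; rfl
  · rw [mul_op]; exact (mul_mul _ (nf_hom φ u)).symm
  · rw [mul_nf H.1 H.2.1 H.2.2]; rfl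

theorem hom_fix (φ : X → X) : ∀ t, Nf t → (∀ x ∈ lv t, φ x = x) → hom φ t = t
  | e, _, _ => rfl
  | gen x, _, h => congrArg gen (h x rfl)
  | op g h, hn, H => by
    rw [hom, hom_fix φ g hn.1 fun x hx => H x (Or.inl hx), hom_fix φ h hn.2.1 fun x hx => H x (Or.inr hx),
      mul_nf hn.2.2.1 hn.2.2.2.1 hn.2.2.2.2]

theorem lv_hom (φ : X → X) : ∀ t, lv (hom φ t) ⊆ φ '' lv t
  | e => empty_subset _
  | gen x => by simp [hom, lv]
  | op g h => (lv_mul _ _).trans (by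
    rw [lv, image_union]; exact union_subset_union (lv_hom φ g) (lv_hom φ h))

section Top
variable {P : Type} [SemilatticeSup P] (R : P → X → X → Prop)

abbrev Gauge (X P : Type) := List (Tm X × Tm X × Bool) → P

inductive D : Gauge X P → Tm X → Tm X → Prop
  | refl (γ t) : Nf t → D γ t t
  | leaf (γ x y) : R (γ []) x y → D γ (gen x) (gen y)
  | node (γ g h g' h') : D (fun l => γ ((g, h, false) :: l)) g g' → D (fun l => γ ((g, h, true) :: l)) h h' →
      D γ (mul g h) (mul g' h')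

omit [SemilatticeSup P] in
theorem D.nf {γ t t'} (h : D R γ t t') : Nf t ∧ Nf t' := by
  induction h with
  | refl _ _ h => exact ⟨h, h⟩
  | leaf => exact ⟨trivial, trivial⟩
  | node _ _ _ _ _ _ _ h1 h2 => exact ⟨nf_mul h1.1 h2.1, nf_mul h1.2 h2.2⟩

def Mo : Prop := ∀ p q x y, p ≤ q → R q x y → R p x y

theorem D.mono (hR : Mo R) {γ t t'} (h : D R γ t t') : ∀ δ, δ ≤ γ → D R δ t t' := by
  induction h with
  | refl _ _ h => exact fun δ _ => .refl _ _ h
  | leaf _ _ _ h => exact fun δ hd => .leaf _ _ _ (hR _ _ _ _ (hd _) h)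
  | node _ _ _ _ _ _ _ h1 h2 => exact fun δ hd => .node _ _ _ _ _ (h1 _ fun _ => hd _) (h2 _ fun _ => hd _)

def L (_hR : Mo R) : Type := {t : Tm X // Nf t}

variable {R} {hR : Mo R} [Nonempty P]

instance : TopologicalSpace (L R hR) where
  IsOpen W := ∀ t ∈ W, ∃ γ, ∀ t' : L R hR, D R γ t.1 t'.1 → t' ∈ W
  isOpen_univ := fun _ _ => ⟨fun _ => Classical.arbitrary P, fun _ _ => trivial⟩
  isOpen_inter := fun _ _ h1 h2 t ht => by
    obtain ⟨γ, h1⟩ := h1 t ht.1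
    obtain ⟨δ, h2⟩ := h2 t ht.2
    exact ⟨γ ⊔ δ, fun t' h => ⟨h1 _ (h.mono R hR _ le_sup_left), h2 _ (h.mono R hR _ le_sup_right)⟩⟩
  isOpen_sUnion := fun _ h t ⟨s, hs, ht⟩ => (h s hs t ht).imp fun _ h t' h' => ⟨s, hs, h t' h'⟩

theorem nh (t : L R hR) (γ : Gauge X P) : {t' : L R hR | D R γ t.1 t'.1} ∈ 𝓝 t := by
  refine mem_nhds_iff.2 ⟨{s | ∃ δ, ∀ u : L R hR, D R δ s.1 u.1 → D R γ t.1 u.1}, fun s ⟨δ, h⟩ =>
    h s (.refl _ _ s.2), fun s ⟨δ, h⟩ => ⟨fun l => δ ((s.1, e, false) :: l), fun v hv =>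
    ⟨fun l => δ ((s.1, e, true) :: (v.1, v.1, true) :: l), fun u hu => h u ?_⟩⟩, γ, fun _ h => h⟩
  have h1 := D.node (R := R) (fun l => δ ((s.1, e, true) :: l)) v.1 v.1 v.1 u.1 (.refl _ _ v.2) hu
  rw [mul_self] at h1
  have h2 := D.node (R := R) δ s.1 e v.1 _ hv h1
  rwa [mul_e, mul_mul _ u.2] at h2

theorem nh' {t : L R hR} {U : Set (L R hR)} (h : U ∈ 𝓝 t) : ∃ γ, ∀ t' : L R hR, D R γ t.1 t'.1 → t' ∈ U := by
  obtain ⟨W, h1, h2, h3⟩ := mem_nhds_iff.1 h
  exact (h2 t h3).imp fun _ h t' h' => h1 (h t' h')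

noncomputable def m (g h : L R hR) : L R hR := ⟨mul g.1 h.1, nf_mul g.2 h.2⟩

def one : L R hR := ⟨e, trivial⟩

omit [Nonempty P] in
theorem mm (g h : L R hR) : m g (m g h) = h := Subtype.ext (mul_mul _ h.2)

omit [Nonempty P] in
theorem ms (g : L R hR) : m g g = one := Subtype.ext (mul_self _)

theorem mc : Continuous fun z : L R hR × L R hR => m z.1 z.2 := by
  refine continuous_def.2 fun W hW => isOpen_iff_mem_nhds.2 fun ⟨g, h⟩ hz => ?_
  obtain ⟨γ, hγ⟩ := hW _ hz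
  exact mem_of_superset (prod_mem_nhds (nh g _) (nh h _)) fun z hz => hγ _ (.node γ _ _ _ _ hz.1 hz.2)

theorem reg : RegularSpace (L R hR) := by
  refine RegularSpace.of_exists_mem_nhds_isClosed_subset fun t U hU => ?_
  have h1 : m t one = t := by rw [← ms t, mm]
  have h2 : (fun z : L R hR × L R hR => m z.1 z.2) ⁻¹' U ∈ 𝓝 (t, one) :=
    mc.continuousAt.preimage_mem_nhds (by rwa [h1])
  obtain ⟨V, hV, O, hO, h3⟩ := mem_nhds_prod_iff.1 h2
  refine ⟨closure V, mem_of_superset hV subset_closure, isClosed_closure, fun x hx => ?_⟩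
  have h4 : (fun y => m y x) ⁻¹' O ∈ 𝓝 x :=
    (mc.comp (continuous_id.prodMk continuous_const)).continuousAt.preimage_mem_nhds (by
      simpa [ms] using hO)
  obtain ⟨y, h5, h6⟩ := mem_closure_iff_nhds.1 hx _ h4
  simpa [mm] using h3 (mk_mem_prod h6 h5)

theorem rect : ∃ (o : L R hR) (φ : L R hR × L R hR ≃ₜ L R hR × L R hR),
    (∀ x, φ '' ({x} ×ˢ univ) = {x} ×ˢ univ) ∧ ∀ x, φ (x, x) = (x, o) := by
  refine ⟨one, ⟨⟨fun z => (z.1, m z.1 z.2), fun z => (z.1, m z.1 z.2), fun z => by simp [mm],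
    fun z => by simp [mm]⟩, continuous_fst.prodMk mc, continuous_fst.prodMk mc⟩, fun x => ?_,
    fun x => by simp [ms]⟩
  ext ⟨a, b⟩
  constructor
  · rintro ⟨⟨c, d⟩, h, h'⟩
    exact ⟨(congrArg Prod.fst h').symm.trans h.1, trivial⟩
  · exact fun h => ⟨(a, m a b), ⟨h.1, trivial⟩, by simp [mm]⟩

end Top

end Pool.Agent.H.MP_a8ba19
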