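import Pool.Agent.H.MP_a8ba19.A

set_option autoImplicit false
open Set Filter Topology TopologicalSpace

namespace Pool.Agent.H.MP_a8ba19
open Tm

variable {X P : Type} [SemilatticeSup P] (R : P → X → X → Prop) (S : P → Set X → Prop)

inductive G : ℕ → Set X → P → Tm X → Tm X → Prop
  | refl (n K p t) : Nf t → G n K p t t
  | leaf (n K p x y) : R p x y → G n K p (gen x) (gen y)
  | node (n n1 n2 K K' p p' g h g' h') : n1 + n2 < n → K ⊆ K' → lv g ⊆ K' → lv h ⊆ K' → p ≤ p' → S p' K' →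
      G n1 K' p' g g' → G n2 K' p' h h' → G n K p (mul g h) (mul g' h')
  | trans (n n1 n2 K K' p p' t s t') : n1 + n2 ≤ n → K ⊆ K' → lv s ⊆ K' → p ≤ p' → S p' K' →
      G n1 K p t s → G n2 K' p' s t' → G n K p t t'

variable {R S}

theorem G.nf {n K p t t'} (h : G R S n K p t t') : Nf t ∧ Nf t' := by
  induction h with
  | refl _ _ _ _ h => exact ⟨h, h⟩
  | leaf => exact ⟨trivial, trivial⟩
  | node _ _ _ _ _ _ _ _ _ _ _ _ _ _ _ _ _ _ _ h1 h2 => exact ⟨nf_mul h1.1 h2.1, nf_mul h1.2 h2.2⟩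
  | trans _ _ _ _ _ _ _ _ _ _ _ _ _ _ _ _ _ h1 h2 => exact ⟨h1.1, h2.2⟩

theorem G.wk (hR : Mo R) {n K p t t'} (h : G R S n K p t t') :
    ∀ K0 p0, K0 ⊆ K → p0 ≤ p → G R S n K0 p0 t t' := by
  induction h with
  | refl _ _ _ _ h => exact fun _ _ _ _ => .refl _ _ _ _ h
  | leaf _ _ _ _ _ h => exact fun _ _ _ hp => .leaf _ _ _ _ _ (hR _ _ _ _ hp h)
  | node _ _ _ _ _ _ _ _ _ _ _ a b c d f i j k =>
    exact fun _ _ h1 h2 => .node _ _ _ _ _ _ _ _ _ _ _ a (h1.trans b) c d (h2.trans f) i j k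
  | trans _ _ _ _ _ _ _ _ _ _ a b c d f _ j ih =>
    exact fun _ _ h1 h2 => .trans _ _ _ _ _ _ _ _ _ _ a (h1.trans b) c (h2.trans d) f (ih _ _ h1 h2) j

theorem G.col {φ : X → X} {p0 : P} (hφ : ∀ q x y, p0 ≤ q → R q x y → φ x = φ y) {n K p t t'}
    (h : G R S n K p t t') : p0 ≤ p → hom φ t = hom φ t' := by
  induction h with
  | refl => exact fun _ => rfl
  | leaf _ _ _ _ _ h => exact fun hp => congrArg gen (hφ _ _ _ hp h)
  | node _ _ _ _ _ _ _ _ _ _ _ _ _ _ _ f _ _ _ h1 h2 =>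
    exact fun hp => by rw [hom_mul, hom_mul, h1 (hp.trans f), h2 (hp.trans f)]
  | trans _ _ _ _ _ _ _ _ _ _ _ _ _ d _ _ _ h1 h2 => exact fun hp => (h1 hp).trans (h2 (hp.trans d))

theorem G.map {φ : X → X} {τ : P → P} (h0 : Monotone τ) (h1 : ∀ q K, S q K → S (τ q) (φ '' K))
    (h2 : ∀ q x y, R q x y → φ x = φ y ∨ R (τ q) (φ x) (φ y)) {n K p t t'}
    (h : G R S n K p t t') : G R S n (φ '' K) (τ p) (hom φ t) (hom φ t') := by
  induction h with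
  | refl => exact .refl _ _ _ _ (nf_hom _ _)
  | leaf _ _ _ _ _ h =>
    rcases h2 _ _ _ h with h | h
    · rw [hom, hom, h]; exact .refl _ _ _ _ trivial
    · exact .leaf _ _ _ _ _ h
  | node _ _ _ _ _ _ _ _ _ _ _ a b c d f i _ _ j k =>
    rw [hom_mul, hom_mul]
    exact .node _ _ _ _ _ _ _ _ _ _ _ a (image_mono b) ((lv_hom _ _).trans (image_mono c))
      ((lv_hom _ _).trans (image_mono d)) (h0 f) (h1 _ _ i) j k
  | trans _ _ _ _ _ _ _ _ _ _ a b c d f _ _ j k =>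
    exact .trans _ _ _ _ _ _ _ _ _ _ a (image_mono b) ((lv_hom _ _).trans (image_mono c)) (h0 d) (h1 _ _ f) j k

variable (R S)

def Ax : Prop := ∀ p K, S p K → ∃ (φ : X → X) (τ : P → P), (∀ x ∈ K, φ x = x) ∧
  (∀ q x y, p ≤ q → R q x y → φ x = φ y) ∧ Monotone τ ∧ (∀ q K, S q K → S (τ q) (φ '' K)) ∧
  (∀ q x y, R q x y → φ x = φ y ∨ R (τ q) (φ x) (φ y)) ∧ ∀ q ≤ p, τ q = q

def Co (n : ℕ) (K : Set X) (p : P) (t t' : Tm X) : Prop :=
  t = t' ∨ (∃ x y, t = gen x ∧ t' = gen y ∧ R p x y) ∨ ∃ g' u' g u K' p' n0 n1 n2, t' = op g' u' ∧ K ⊆ K' ∧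
    lv g ⊆ K' ∧ lv u ⊆ K' ∧ p ≤ p' ∧ S p' K' ∧ G R S n0 K p t (mul g u) ∧ G R S n1 K' p' g g' ∧
    G R S n2 K' p' u u' ∧ n0 + n1 + n2 < n

variable {R S}

theorem Co.wk (hR : Mo R) {n K p t t'} (h : Co R S n K p t t') {n' K0 p0} (h0 : n ≤ n') (h1 : K0 ⊆ K)
    (h2 : p0 ≤ p) : Co R S n' K0 p0 t t' := by
  rcases h with h | ⟨x, y, a, b, c⟩ | ⟨g', u', g, u, K', p', n0, n1, n2, a, b, c, d, f, i, j, k, l, o⟩
  · exact Or.inl h
  · exact Or.inr (Or.inl ⟨x, y, a, b, hR _ _ _ _ h2 c⟩)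
  · exact Or.inr (Or.inr ⟨g', u', g, u, K', p', n0, n1, n2, a, h1.trans b, c, d, h2.trans f, i,
      j.wk hR _ _ h1 h2, k, l, o.trans_le h0⟩)

theorem dec (hR : Mo R) (hA : Ax R S) (h2 : ∀ p q x y z, R p x y → ¬R q y z) (N : ℕ) :
    ∀ n K p t t', G R S n K p t t' → n ≤ N → Co R S n K p t t' := by
  induction N using Nat.strong_induction_on with
  | _ N IH =>
  intro n K p t t' h
  induction h with
  | refl => exact fun _ => Or.inl rfl
  | leaf _ _ _ x y h => exact fun _ => Or.inr (Or.inl ⟨x, y, rfl, rfl, h⟩)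
  | trans n n1 n2 K K' p p' t s t' a b c d f i j ih1 ih2 =>
    intro hn
    rcases ih2 (by omega) with rfl | ⟨x, y, rfl, rfl, h⟩ |
      ⟨g', u', g, u, K'', p'', m0, m1, m2, a', b', c', d', f', i', j', k', l', o'⟩
    · exact (ih1 (by omega)).wk hR (by omega) Subset.rfl le_rfl
    · rcases ih1 (by omega) with rfl | ⟨z, w, rfl, hw, h'⟩ | ⟨_, _, _, _, _, _, _, _, _, a', _⟩
      · exact Or.inr (Or.inl ⟨x, y, rfl, rfl, hR _ _ _ _ d h⟩)
      · cases hw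
        exact absurd h (h2 _ _ _ _ _ h')
      · cases a'
    · exact Or.inr (Or.inr ⟨g', u', g, u, K'', p'', n1 + m0, m1, m2, a', b.trans b', c', d', d.trans f', i',
        .trans _ _ _ _ _ _ _ _ _ _ le_rfl b c d f i j', k', l', by omega⟩)
  | node n n1 n2 K K' p p' g h g' h' a b c d f i j k ih1 ih2 =>
    intro hn
    have hg : ∀ s, Nf s → lv s ⊆ K' → ∀ m s', G R S m K' p' s s' → s' = g' → s = g := by
      rintro s h1 h3 m s' h4 rfl
      obtain ⟨φ, τ, a1, a2, -⟩ := hA _ _ i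
      rw [← hom_fix φ s h1 fun x hx => a1 x (h3 hx), ← hom_fix φ g j.nf.1 fun x hx => a1 x (c hx),
        h4.col a2 le_rfl, j.col a2 le_rfl]
    rcases cases4 g' h' with rfl | rfl | ⟨u', rfl⟩ | H
    · rcases ih2 (by omega) with rfl | ⟨_, _, _, h, _⟩ | ⟨_, _, _, _, _, _, _, _, _, h, _⟩
      · rw [mul_e, mul_e]
        exact (ih1 (by omega)).wk hR (by omega) b f
      · cases h
      · cases h
    · rw [hg h k.nf.1 d _ _ k rfl, mul_self, mul_self]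
      exact Or.inl rfl
    · rw [mul_op]
      rcases ih2 (by omega) with rfl | ⟨_, _, _, h, _⟩ |
        ⟨_, _, g2, u, K'', p'', m0, m1, m2, a', b', c', d', f', i', j', k', l', o'⟩
      · rw [← hg g' j.nf.2 (fun x hx => d (Or.inl hx)) 0 _ (.refl _ _ _ _ j.nf.2) rfl, mul_op]
        exact Or.inl rfl
      · cases h
      cases a'
      obtain ⟨φ, τ, a1, a2, a3, a4, a5, a6⟩ := hA _ _ i'
      have h5 := j.map a3 a4 a5
      rw [a6 _ f', hom_fix φ g j.nf.1 fun x hx => a1 x (b' (c hx)), ← k'.col a2 le_rfl,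
        hom_fix φ g2 k'.nf.1 fun x hx => a1 x (c' hx)] at h5
      have h6 := G.node (n1 + m0 + 1) _ _ K _ p _ _ _ _ _ (Nat.lt_succ_self _) b c d f i
        (h5.wk hR K' _ (fun x hx => ⟨x, hx, a1 x (b' hx)⟩) le_rfl) j'
      rw [mul_mul _ l'.nf.1] at h6
      exact (IH _ (by omega) (n1 + m0 + 1 + m2) _ _ _ _ (.trans _ _ _ _ _ _ _ _ _ _ le_rfl (b.trans b') d'
        (f.trans f') i' h6 l') le_rfl).wk hR (by omega) Subset.rfl le_rfl
    · rw [mul_nf H.1 H.2.1 H.2.2]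
      exact Or.inr (Or.inr ⟨g', h', g, h, K', p', 0, n1, n2, rfl, b, c, d, f, i,
        .refl _ _ _ _ (nf_mul j.nf.1 k.nf.1), j, k, by omega⟩)

theorem low (hR : Mo R) (hA : Ax R S) (h2 : ∀ p q x y z, R p x y → ¬R q y z) (n : ℕ) :
    ∀ K p t t', G R S n K p t t' → (∀ y ∈ lv t', ∀ x, ¬R p x y) → t = t' := by
  induction n using Nat.strong_induction_on with
  | _ n IH =>
  intro K p t t' h hl
  rcases dec hR hA h2 n _ _ _ _ _ h le_rfl with h | ⟨x, y, -, rfl, h'⟩ |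
    ⟨g', u', g, u, K', p', n0, n1, n2, rfl, b, c, d, f, i, j, k, l, o⟩
  · exact h
  · exact absurd h' (hl y rfl x)
  · have a1 := IH _ (by omega) _ _ _ _ k fun y hy x h => hl y (Or.inl hy) x (hR _ _ _ _ f h)
    have a2 := IH _ (by omega) _ _ _ _ l fun y hy x h => hl y (Or.inr hy) x (hR _ _ _ _ f h)
    subst a1 a2
    rw [mul_nf h.nf.2.2.2.1 h.nf.2.2.2.2.1 h.nf.2.2.2.2.2] at j
    exact IH _ (by omega) _ _ _ _ j hl

noncomputable def ga (σ : Set X → P) : Set X → P → Gauge X P := fun K p l =>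
  l.rec (motive := fun _ => Set X → P → P) (fun _ p => p)
    (fun a _ ih K p => ih (K ∪ lv a.1 ∪ lv a.2.1) (p ⊔ σ (K ∪ lv a.1 ∪ lv a.2.1))) K p

theorem toG (σ : Set X → P) (hσ : ∀ K, K.Finite → ∀ p, σ K ≤ p → S p K) {γ t t'}
    (h : D R γ t t') : ∀ K p, K.Finite → γ = ga σ K p → ∃ n, G R S n K p t t' := by
  induction h with
  | refl _ _ h => exact fun _ _ _ _ => ⟨0, .refl _ _ _ _ h⟩
  | leaf _ _ _ h => exact fun _ _ _ hγ => ⟨0, .leaf _ _ _ _ _ (by subst hγ; exact h)⟩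
  | node γ g h g' h' _ _ h1 h2 =>
    intro K p hK hγ
    have hK' := (hK.union (lv_fin g)).union (lv_fin h)
    obtain ⟨n1, h1⟩ := h1 _ (p ⊔ σ (K ∪ lv g ∪ lv h)) hK' (by subst hγ; rfl)
    obtain ⟨n2, h2⟩ := h2 _ (p ⊔ σ (K ∪ lv g ∪ lv h)) hK' (by subst hγ; rfl)
    exact ⟨_, .node _ _ _ _ _ _ _ _ _ _ _ (Nat.lt_succ_self _) (fun x hx => Or.inl (Or.inl hx))
      (fun x hx => Or.inl (Or.inr hx)) subset_union_right le_sup_left (hσ _ hK' _ le_sup_right) h1 h2⟩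

theorem key (hR : Mo R) (hA : Ax R S) (h2 : ∀ p q x y z, R p x y → ¬R q y z)
    (h3 : ∀ K : Set X, K.Finite → ∃ q, ∀ p, q ≤ p → S p K) (p : P) :
    ∃ γ, ∀ t t', D R γ t t' → (∀ y ∈ lv t', ∀ x, ¬R p x y) → t = t' := by
  have : Nonempty P := ⟨p⟩
  choose! σ hσ using h3
  refine ⟨ga σ ∅ p, fun t t' h hl => ?_⟩
  obtain ⟨n, h⟩ := toG (S := S) σ hσ h ∅ p finite_empty rfl
  exact low hR hA h2 n _ _ _ _ h hl

end Pool.Agent.H.MP_a8ba19
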