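import Pool.Agent.H.MP_a8ba19.B

set_option autoImplicit false
open Set Filter Topology TopologicalSpace

namespace Pool.Agent.H.MP_a8ba19
open Tm

abbrev I : Type := (Ordinal.omega.{0} 1).ToType

open Ordinal in
theorem bd (s : ℕ → I) : ∃ b, ∀ n, s n < b := by
  have h1 : (⨆ n, Order.succ (ToType.mk.symm (s n)).1) < ω₁ :=
    Ordinal.iSup_lt_omega_one fun n =>
      (Cardinal.isSuccLimit_omega 1).succ_lt (ToType.mk.symm (s n)).2
  refine ⟨ToType.mk ⟨_, h1⟩, fun n => ?_⟩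
  rw [← ToType.mk.apply_symm_apply (s n), OrderIso.lt_iff_lt]
  exact Subtype.coe_lt_coe.1 ((Order.lt_succ (ToType.mk.symm (s n)).1).trans_le
    (Ordinal.le_iSup (fun n => Order.succ (ToType.mk.symm (s n)).1) n))

instance : Nonempty I := ⟨Ordinal.ToType.mk ⟨0, Ordinal.omega_pos 1⟩⟩

abbrev Br := I → Bool
abbrev Y := Br ⊕ Br × I × ℕ

def ag (α : I) (a b : Br) : Prop := ∀ ξ < α, a ξ = b ξ

def R (p : I × ℕ) (x y : Y) : Prop :=
  ∃ a s α k, x = .inl a ∧ y = .inr (s, α, k) ∧ p.1 ≤ α ∧ p.2 < k ∧ ag α s a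

def S (p : I × ℕ) (K : Set Y) : Prop :=
  (∀ s α k, .inr (s, α, k) ∈ K → α ≤ p.1 ∧ k ≤ p.2) ∧ ∀ a b, .inl a ∈ K → .inl b ∈ K → ag p.1 a b → a = b

theorem hR : Mo R := fun _ _ _ _ h ⟨a, s, α, k, h1, h2, h3, h4, h5⟩ =>
  ⟨a, s, α, k, h1, h2, h.1.trans h3, h.2.trans_lt h4, h5⟩

theorem h3 (K : Set Y) (hK : K.Finite) : ∃ q, ∀ p, q ≤ p → S p K := by
  have a1 : ∀ᶠ p : I × ℕ in atTop, ∀ y ∈ K, ∀ s α k, y = .inr (s, α, k) → α ≤ p.1 ∧ k ≤ p.2 := by
    refine (eventually_all_finite hK).2 fun y _ => ?_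
    rcases y with a | ⟨s, α, k⟩
    · exact Eventually.of_forall nofun
    · filter_upwards [eventually_ge_atTop (α, k)] with p hp
      rintro _ _ _ ⟨⟩
      exact hp
  have a2 : ∀ᶠ p : I × ℕ in atTop, ∀ y ∈ K, ∀ z ∈ K, ∀ a b, y = .inl a → z = .inl b → ag p.1 a b → a = b := by
    refine (eventually_all_finite hK).2 fun y _ => (eventually_all_finite hK).2 fun z _ => ?_
    rcases y with a | y; swap
    · exact Eventually.of_forall nofun
    rcases z with b | z; swap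
    · exact Eventually.of_forall nofun
    by_cases h : a = b
    · refine Eventually.of_forall ?_
      rintro _ _ _ ⟨⟩ ⟨⟩ _
      exact h
    obtain ⟨ξ, hξ⟩ := Function.ne_iff.1 h
    obtain ⟨β, hβ⟩ := bd fun _ => ξ
    filter_upwards [eventually_ge_atTop (β, 0)] with p hp
    rintro _ _ ⟨⟩ ⟨⟩ h
    exact absurd (h ξ ((hβ 0).trans_le hp.1)) hξ
  obtain ⟨q, hq⟩ := eventually_atTop.1 (a1.and a2)
  exact ⟨q, fun p hp => ⟨fun s α k h => (hq p hp).1 _ h _ _ _ rfl, fun a b ha hb =>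
    (hq p hp).2 _ ha _ hb _ _ rfl rfl⟩⟩

theorem hA : Ax R S := by
  classical
  rintro ⟨β, m⟩ K ⟨k1, k2⟩
  obtain ⟨ψ, p1, p2, p3⟩ : ∃ ψ : Br → Br, (∀ s, ag β (ψ s) s) ∧ (∀ s s', ag β s s' → ψ s = ψ s') ∧
      ∀ a, .inl a ∈ K → ψ a = a := by
    let T : Br → Br := fun s ξ => if ξ < β then s ξ else false
    have hT : ∀ s s', ag β s s' → T s = T s' := fun s s' h => funext fun ξ => by
      by_cases hξ : ξ < β <;> simp [T, hξ, h ξ]
    let ψ : Br → Br := fun u => if h : ∃ a, .inl a ∈ K ∧ ag β a u then h.choose else u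
    refine ⟨fun s => ψ (T s), fun s ξ hξ => ?_, fun s s' h => congrArg ψ (hT s s' h), fun a ha => ?_⟩
    · simp only [ψ]
      split_ifs with h
      · rw [h.choose_spec.2 ξ hξ]; simp [T, hξ]
      · simp [T, hξ]
    · have h : ∃ b, .inl b ∈ K ∧ ag β b (T a) := ⟨a, ha, fun ξ hξ => by simp [T, hξ]⟩
      simp only [ψ, dif_pos h]
      exact k2 _ _ h.choose_spec.1 ha fun ξ hξ => by rw [h.choose_spec.2 ξ hξ]; simp [T, hξ]
  let φ : Y → Y := Sum.elim (fun a => .inl (ψ a)) fun z =>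
    if β ≤ z.2.1 ∧ m < z.2.2 then .inl (ψ z.1) else .inr (z.1, min z.2.1 β, z.2.2)
  refine ⟨φ, fun q => (min q.1 β, q.2), ?_, ?_, fun q q' h => ⟨min_le_min_right _ h.1, h.2⟩, ?_, ?_,
    fun q hq => Prod.ext (min_eq_left hq.1) rfl⟩
  · rintro (a | ⟨s, α, k⟩) hx
    · simp [φ, p3 a hx]
    · have := k1 _ _ _ hx
      simp [φ, this.2.not_gt, min_eq_left this.1]
  · rintro q _ _ hq ⟨a, s, α, k, rfl, rfl, a1, a2, a3⟩
    have a4 : β ≤ α := hq.1.trans a1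
    simp [φ, a4, hq.2.trans_lt a2, p2 a s fun ξ hξ => (a3 ξ (hξ.trans_le a4)).symm]
  · rintro q K' ⟨l1, l2⟩
    constructor
    · rintro s α k ⟨a | ⟨s', α', k'⟩, h1, h2⟩
      · cases h2
      · simp only [φ, Sum.elim_inr] at h2
        split_ifs at h2
        cases h2
        exact ⟨min_le_min_right _ (l1 _ _ _ h1).1, (l1 _ _ _ h1).2⟩
    · have e1 : ∀ a, .inl a ∈ φ '' K' → ∃ s, a = ψ s ∧ (.inl s ∈ K' ∨ β ≤ q.1) := by
        rintro a ⟨s | ⟨s, α, k⟩, h1, h2⟩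
        · exact ⟨s, (Sum.inl.inj h2).symm, Or.inl h1⟩
        · simp only [φ, Sum.elim_inr] at h2
          split_ifs at h2 with h
          exact ⟨s, (Sum.inl.inj h2).symm, Or.inr (h.1.trans (l1 _ _ _ h1).1)⟩
      intro a b ha hb h
      obtain ⟨s, rfl, hs⟩ := e1 a ha
      obtain ⟨s', rfl, hs'⟩ := e1 b hb
      by_cases hq : β ≤ q.1
      · exact p2 _ _ fun ξ hξ => by rw [← p1 s ξ hξ, h ξ (lt_min (hξ.trans_le hq) hξ), p1 s' ξ hξ]
      · rw [l2 s s' (hs.resolve_right hq) (hs'.resolve_right hq) fun ξ hξ => by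
          have := hξ.trans (not_le.1 hq)
          rw [← p1 s ξ this, h ξ (lt_min hξ this), p1 s' ξ this]]
  · rintro q _ _ ⟨a, s, α, k, rfl, rfl, a1, a2, a3⟩
    by_cases h : β ≤ α ∧ m < k
    · exact Or.inl (by simp [φ, h, p2 a s fun ξ hξ => (a3 ξ (hξ.trans_le h.1)).symm])
    · exact Or.inr ⟨ψ a, s, min α β, k, rfl, by simp only [φ, Sum.elim_inr, if_neg h],
        min_le_min_right _ a1, a2, fun ξ hξ => by
          rw [a3 ξ (hξ.trans_le (min_le_left _ _)), p1 a ξ (hξ.trans_le (min_le_right _ _))]⟩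

theorem diag (f : Br → I) : ∃ a b ξ, a ≠ b ∧ f a ≤ ξ ∧ f b ≤ ξ ∧ ag ξ a b := by
  classical
  let F : (ξ : I) → ((ζ : I) → ζ < ξ → Bool) → Bool := fun ξ r =>
    if h : ∃ b : Br, f b ≤ ξ ∧ ∀ ζ (hζ : ζ < ξ), r ζ hζ = b ζ then !(h.choose ξ) else false
  let a : Br := (wellFounded_lt (α := I)).fix F
  have h : ∃ b : Br, f b ≤ f a ∧ ∀ ζ (_ : ζ < f a), a ζ = b ζ := ⟨a, le_rfl, fun _ _ => rfl⟩
  refine ⟨a, h.choose, f a, fun he => ?_, le_rfl, h.choose_spec.1, h.choose_spec.2⟩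
  have h1 : a (f a) = !(h.choose (f a)) := by
    rw [show a (f a) = F (f a) fun ζ _ => a ζ from WellFounded.fix_eq _ _ _]
    exact dif_pos h
  rw [← he] at h1
  simp at h1

abbrev Z := L R hR

theorem gd (t : Z) : ∃ U : ℕ → Set Z, (∀ n, IsOpen (U n)) ∧ {t} = ⋂ n, U n := by
  choose γ hγ using fun n : ℕ => key hR hA (by
    rintro _ _ _ _ _ ⟨_, _, _, _, _, rfl, _⟩ ⟨_, _, _, _, h, _⟩; cases h) h3 (Classical.arbitrary I, n)
  refine ⟨fun n => interior {t' | D R (γ n) t.1 t'.1}, fun _ => isOpen_interior, Subset.antisymm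
    (singleton_subset_iff.2 (mem_iInter.2 fun n => mem_interior_iff_mem_nhds.2 (nh t _))) fun s hs => ?_⟩
  obtain ⟨q, hq⟩ := h3 _ (lv_fin s.1)
  have h0 := interior_subset (mem_iInter.1 hs q.2)
  refine Subtype.ext (hγ q.2 _ _ h0 ?_).symm
  rintro _ hy _ ⟨_, _, _, _, _, rfl, _, h, _⟩
  exact h.not_ge ((hq q le_rfl).1 _ _ _ hy).2

theorem nm (M : Type) [MetricSpace M] (f : Z → M) (hf : Continuous f) : ¬Function.Injective f := by
  intro hi
  let g : Y → Z := fun y => ⟨gen y, trivial⟩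
  choose γ hγ using fun (a : Br) (n : ℕ) => nh' (hf.continuousAt.preimage_mem_nhds
    (Metric.ball_mem_nhds (f (g (.inl a))) (show (0 : ℝ) < 1 / (n + 1) by positivity)))
  choose α hα using fun a => bd fun n => (γ a n []).1
  obtain ⟨a, b, ξ, h1, h2, h3, h4⟩ := diag α
  refine h1 (Sum.inl.inj (gen.inj (congrArg Subtype.val (hi (a₁ := g (.inl a)) (a₂ := g (.inl b))
    (eq_of_forall_dist_le fun ε hε => ?_)))))
  obtain ⟨n, hn⟩ := exists_nat_one_div_lt (half_pos hε)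
  let y : Y := .inr (a, ξ, max (γ a n []).2 (γ b n []).2 + 1)
  have a1 := hγ a n (g y) (.leaf _ _ _ ⟨a, a, ξ, _, rfl, rfl, (hα a n).le.trans h2,
    Nat.lt_succ_of_le (le_max_left _ _), fun _ _ => rfl⟩)
  have a2 := hγ b n (g y) (.leaf _ _ _ ⟨b, a, ξ, _, rfl, rfl, (hα b n).le.trans h3,
    Nat.lt_succ_of_le (le_max_right _ _), h4⟩)
  have := dist_triangle_left (f (g (.inl a))) (f (g (.inl b))) (f (g y))
  simp only [mem_preimage, Metric.mem_ball] at a1 a2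
  linarith

end Pool.Agent.H.MP_a8ba19
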